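import Pool.Agent.Q46.CD.Hull

set_option autoImplicit false
set_option linter.unusedSectionVars false

namespace Q46.CD

open Finset Filter Topology

section count

variable {V : Type*} [Fintype V] [DecidableEq V]

open Classical in
theorem card_inj (K : ℕ) (S : Finset V) :
    (univ.filter fun φ : V → Fin K => Set.InjOn φ (S : Set V)).card =
      K.descFactorial S.card * K ^ (Fintype.card V - S.card) := by
  rw [← Fintype.card_subtype]
  have E : {φ : V → Fin K // Set.InjOn φ (S : Set V)} ≃ (S ↪ Fin K) × ({x // ¬ x ∈ S} → Fin K) :=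
    { toFun := fun φ => (⟨fun s => φ.1 s, fun a b hab => Subtype.ext (φ.2 a.2 b.2 hab)⟩,
        fun x => φ.1 x)
      invFun := fun p => ⟨fun v => if h : v ∈ S then p.1 ⟨v, h⟩ else p.2 ⟨v, h⟩, by
        intro a ha b hb hab
        have ha' : a ∈ S := ha
        have hb' : b ∈ S := hb
        simp only [ha', hb', dif_pos] at hab
        exact congrArg Subtype.val (p.1.injective hab)⟩
      left_inv := fun φ => by
        apply Subtype.ext
        funext v
        by_cases h : v ∈ S
        · simp only [h, dif_pos]; rfl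
        · simp only [h, dif_neg, not_false_eq_true]
      right_inv := fun p => by
        refine Prod.ext ?_ ?_
        · ext s
          simp
        · funext x
          simp [x.2] }
  rw [Fintype.card_congr E, Fintype.card_prod, Fintype.card_embedding_eq, Fintype.card_fin,
    Fintype.card_coe, Fintype.card_fun, Fintype.card_fin]
  congr 2
  have := Fintype.card_subtype_compl (fun x => x ∈ S)
  rw [this]
  simp

end count

/-- density vector -/
noncomputable def dv {m : ℕ} (e : Fin m → ℕ) {N : ℕ} (G : SimpleGraph (Fin N)) :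
    Fin m → ℝ := by
  classical
  exact fun i => ((G.cliqueFinset (e i)).card : ℝ) / ((N.choose (e i) : ℕ) : ℝ)

/-- the polytope of density vectors -/
def PN {m : ℕ} (e : Fin m → ℕ) (N : ℕ) : Set (Fin m → ℝ) :=
  convexHull ℝ {x : Fin m → ℝ | ∃ G : SimpleGraph (Fin N), x = dv e G}

theorem top_clique (N k : ℕ) (inst : DecidableRel (⊤ : SimpleGraph (Fin N)).Adj) :
    (@SimpleGraph.cliqueFinset _ (⊤ : SimpleGraph (Fin N)) _ _ inst k) = univ.powersetCard k := by
  ext S
  rw [SimpleGraph.mem_cliqueFinset_iff, Finset.mem_powersetCard, SimpleGraph.isNClique_iff]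
  constructor
  · exact fun h => ⟨Finset.subset_univ _, h.2⟩
  · exact fun h => ⟨fun a _ b _ hab => hab, h.2⟩

theorem one_mem {m : ℕ} (e : Fin m → ℕ) (N : ℕ) (hN : ∀ i, e i ≤ N) : (1 : Fin m → ℝ) ∈ PN e N := by
  refine subset_convexHull ℝ _ ⟨⊤, ?_⟩
  funext i
  have h2 : (0 : ℝ) < (N.choose (e i) : ℕ) := by exact_mod_cast Nat.choose_pos (hN i)
  unfold dv
  rw [top_clique, Finset.card_powersetCard, Finset.card_univ, Fintype.card_fin, div_self h2.ne']
  rfl

open Classical in
theorem comap_clique (N K k : ℕ) (φ : Fin N → Fin K)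
    (inst : DecidableRel ((⊤ : SimpleGraph (Fin K)).comap φ).Adj) :
    (@SimpleGraph.cliqueFinset _ ((⊤ : SimpleGraph (Fin K)).comap φ) _ _ inst k).card =
      ∑ S ∈ (univ : Finset (Fin N)).powersetCard k, if Set.InjOn φ (S : Set (Fin N)) then 1 else 0 := by
  rw [← Finset.card_filter]
  congr 1
  ext S
  rw [SimpleGraph.mem_cliqueFinset_iff, Finset.mem_filter, Finset.mem_powersetCard,
    SimpleGraph.isNClique_iff]
  constructor
  · rintro ⟨h, hc⟩
    refine ⟨⟨Finset.subset_univ _, hc⟩, fun a ha b hb hab => ?_⟩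
    by_contra hne
    exact h ha hb hne hab
  · rintro ⟨h, hc⟩
    exact ⟨fun a ha b hb hab h' => hab (hc ha hb h'), h.2⟩

theorem sum_clique (N K k : ℕ)
    (inst : ∀ φ : Fin N → Fin K, DecidableRel ((⊤ : SimpleGraph (Fin K)).comap φ).Adj) :
    ∑ φ : Fin N → Fin K, (@SimpleGraph.cliqueFinset _ ((⊤ : SimpleGraph (Fin K)).comap φ) _ _
      (inst φ) k).card = (N.choose k) * (K.descFactorial k * K ^ (N - k)) := by
  classical
  simp only [comap_clique]
  rw [Finset.sum_comm]
  rw [Finset.sum_congr rfl fun S hS => by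
    rw [← Finset.card_filter, card_inj, (Finset.mem_powersetCard.1 hS).2, Fintype.card_fin]]
  rw [Finset.sum_const, Finset.card_powersetCard, Finset.card_univ, Fintype.card_fin,
    smul_eq_mul]

theorem pt_mem {m : ℕ} (e : Fin m → ℕ) (he : ∀ i, 0 < e i) (N : ℕ) (hN : ∀ i, e i ≤ N) (k : ℕ) :
    pt e k ∈ PN e N := by
  classical
  obtain ⟨K, hK⟩ : ∃ K, K = k + 1 := ⟨_, rfl⟩
  have hKpos : 0 < K := by omega
  have hK0 : (0 : ℝ) < K := by exact_mod_cast hKpos
  have h1 : pt e k = ∑ φ : Fin N → Fin K, ((K : ℝ) ^ N)⁻¹ •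
      dv e ((⊤ : SimpleGraph (Fin K)).comap φ) := by
    funext i
    rw [Finset.sum_apply]
    simp only [Pi.smul_apply, smul_eq_mul]
    rw [← Finset.mul_sum]
    unfold dv
    rw [← Finset.sum_div, ← Nat.cast_sum,
      sum_clique N K (e i) (fun φ a b => Classical.propDecidable _)]
    have h5 : (0 : ℝ) < (N.choose (e i) : ℕ) := by exact_mod_cast Nat.choose_pos (hN i)
    push_cast
    rw [mul_div_cancel_left₀ _ h5.ne']
    have h6 : (K : ℝ) ^ N = (K : ℝ) ^ (e i) * (K : ℝ) ^ (N - e i) := by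
      rw [← pow_add, Nat.add_sub_cancel' (hN i)]
    have h7 : (K : ℝ) ^ (N - e i) ≠ 0 := by positivity
    have h8 : (K : ℝ) ^ (e i) ≠ 0 := by positivity
    rw [h6]
    have h9 := descFact K (e i) hKpos
    rw [prod_range_Ico _ (he i)] at h9
    have h10 : pt e k i = ∏ j ∈ Ico 1 (e i), (1 - (j : ℝ) / (K : ℝ)) := by
      unfold pt
      rw [hK]; push_cast; rfl
    rw [h10, ← h9]
    field_simp
  rw [h1]
  refine (convex_convexHull ℝ _).sum_mem (fun _ _ => by positivity) ?_
    (fun φ _ => subset_convexHull ℝ _ ⟨_, rfl⟩)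
  rw [Finset.sum_const, Finset.card_univ, Fintype.card_fun, Fintype.card_fin, Fintype.card_fin,
    nsmul_eq_mul]
  push_cast
  exact mul_inv_cancel₀ (by positivity)

theorem scale_tendsto {m : ℕ} (e : Fin m → ℕ) (s : ℕ) :
    Tendsto (fun n : ℕ => fun i : Fin m =>
      (((n + s).descFactorial (e i) : ℕ) : ℝ) / ((n + s : ℕ) : ℝ) ^ (e i)) atTop (𝓝 1) := by
  rw [tendsto_pi_nhds]
  intro i
  have h : Tendsto (fun n : ℕ => ∏ j ∈ range (e i), (1 - (j : ℝ) / ((n + s : ℕ) : ℝ))) atTop
      (𝓝 (∏ _j ∈ range (e i), (1 - 0 : ℝ))) := by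
    refine tendsto_finsetProd _ fun j _ => ?_
    refine tendsto_const_nhds.sub ?_
    refine Tendsto.div_atTop tendsto_const_nhds ?_
    exact tendsto_natCast_atTop_atTop.comp (tendsto_add_atTop_nat s)
  have e1 : (1 : Fin m → ℝ) i = ∏ _j ∈ range (e i), (1 - 0 : ℝ) := by simp
  rw [e1]
  refine h.congr' ?_
  filter_upwards [eventually_ge_atTop 1] with n hn
  rw [descFact _ _ (by omega)]

theorem sub_aux {m : ℕ} (e : Fin m → ℕ) (he : ∀ i, 0 < e i) (N : ℕ) (hN : ∀ i, e i ≤ N)
    (hN0 : 0 < N) (x : Fin m → ℝ) (hx : x ∈ PN e N) :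
    (fun i : Fin m => ((N.descFactorial (e i) : ℕ) : ℝ) / (N : ℝ) ^ (e i)) * x ∈ KK e := by
  classical
  set s : Fin m → ℝ := fun i : Fin m => ((N.descFactorial (e i) : ℕ) : ℝ) / (N : ℝ) ^ (e i) with hs
  have hconv : Convex ℝ ((LinearMap.mulLeft ℝ s) ⁻¹' (KK e)) :=
    (convex_convexHull ℝ _).linear_preimage _
  have hsub : {x : Fin m → ℝ | ∃ G : SimpleGraph (Fin N), x = dv e G} ⊆
      (LinearMap.mulLeft ℝ s) ⁻¹' (KK e) := by
    rintro y ⟨G, rfl⟩
    have : Nonempty (Fin N) := ⟨⟨0, hN0⟩⟩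
    have h := hom_mem G e he
    show s * dv e G ∈ KK e
    convert h using 1
    funext i
    rw [Pi.mul_apply]
    have h2 : (0 : ℝ) < (N.choose (e i) : ℕ) := by exact_mod_cast Nat.choose_pos (hN i)
    have h3 : (0 : ℝ) < N := by exact_mod_cast hN0
    simp only [hs, dv, Fintype.card_fin]
    rw [Nat.descFactorial_eq_factorial_mul_choose]
    push_cast
    field_simp
  exact convexHull_min hsub hconv hx

theorem final {m : ℕ} (e : Fin m → ℕ) (he : ∀ i, 0 < e i) :
    (⋂ n : ℕ, PN e (n + ∑ i, e i)) = KK e := by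
  have hle : ∀ n i, e i ≤ n + ∑ i, e i := fun n i =>
    (Finset.single_le_sum (f := e) (fun _ _ => Nat.zero_le _) (Finset.mem_univ i)).trans
      (Nat.le_add_left _ _)
  apply Set.Subset.antisymm
  · intro x hx
    rw [Set.mem_iInter] at hx
    have h1 := (scale_tendsto e (∑ i, e i)).mul_const x
    rw [one_mul] at h1
    refine (KK_closed e).mem_of_tendsto h1 ?_
    filter_upwards [eventually_ge_atTop 1] with n hn
    exact sub_aux e he _ (hle n) (by omega) x (hx n)
  · refine Set.subset_iInter fun n => ?_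
    refine convexHull_min ?_ (convex_convexHull ℝ _)
    intro y hy
    rcases hy with rfl | ⟨k, rfl⟩
    · exact one_mem e _ (hle n)
    · exact pt_mem e he _ (hle n) k

end Q46.CD
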