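import Pool.Agent.Q46.CD.Max
import Pool.Agent.Y98.EC.Hull

set_option autoImplicit false
set_option linter.unusedSectionVars false

namespace Q46.CD

open Finset Filter Topology

/-- the extreme points -/
noncomputable def pt {m : ℕ} (e : Fin m → ℕ) (k : ℕ) : Fin m → ℝ :=
  fun i => ∏ j ∈ Ico 1 (e i), (1 - (j : ℝ) / ((k : ℝ) + 1))

def KK {m : ℕ} (e : Fin m → ℕ) : Set (Fin m → ℝ) :=
  convexHull ℝ (insert (1 : Fin m → ℝ) (Set.range fun k : ℕ => pt e k))

theorem pt_tendsto {m : ℕ} (e : Fin m → ℕ) : Tendsto (fun k : ℕ => pt e k) atTop (𝓝 1) := by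
  rw [tendsto_pi_nhds]
  intro i
  have h : Tendsto (fun k : ℕ => ∏ j ∈ Ico 1 (e i), (1 - (j : ℝ) / ((k : ℝ) + 1))) atTop
      (𝓝 (∏ _j ∈ Ico 1 (e i), (1 - 0 : ℝ))) := by
    refine tendsto_finsetProd _ fun j _ => ?_
    refine tendsto_const_nhds.sub ?_
    refine Tendsto.div_atTop tendsto_const_nhds ?_
    exact tendsto_atTop_add_const_right _ _ tendsto_natCast_atTop_atTop
  have e1 : (1 : Fin m → ℝ) i = ∏ _j ∈ Ico 1 (e i), (1 - 0 : ℝ) := by simp
  rw [e1]
  exact h

theorem KK_closed {m : ℕ} (e : Fin m → ℕ) : IsClosed (KK e) := by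
  have h : IsCompact (insert (1 : Fin m → ℝ) (Set.range fun k : ℕ => pt e k)) :=
    (pt_tendsto e).isCompact_insert_range
  exact (Pool.Agent.Y98.EC.isCompact_hull h).isClosed

/-- the point of homomorphism densities of a graph lies in the hull -/
theorem hom_mem {V : Type*} [Fintype V] [DecidableEq V] {m : ℕ} [Nonempty V] (G : SimpleGraph V)
    [DecidableRel G.Adj] (e : Fin m → ℕ) (he : ∀ i, 0 < e i) :
    (fun i => ((e i).factorial * (G.cliqueFinset (e i)).card / (Fintype.card V : ℝ) ^ (e i) : ℝ)) ∈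
      KK e := by
  by_contra hcon
  obtain ⟨f, u, h1, h2⟩ := geometric_hahn_banach_closed_point (convex_convexHull ℝ _)
    (KK_closed e) hcon
  have hf : ∀ y : Fin m → ℝ, f y = ∑ i, f (Pi.single i 1) * y i := by
    intro y
    have hy : y = ∑ i, y i • (Pi.single i (1 : ℝ) : Fin m → ℝ) := by
      ext j
      simp [Finset.sum_apply, Pi.single_apply]
    conv_lhs => rw [hy]
    rw [map_sum]
    refine Finset.sum_congr rfl fun i _ => ?_
    rw [map_smul, smul_eq_mul, mul_comm]
  have h3 := main_ineq G e he (fun i => f (Pi.single i 1)) u (fun k => by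
    have := h1 (pt e k) (subset_convexHull ℝ _ (Set.mem_insert_of_mem _ ⟨k, rfl⟩))
    rw [hf] at this
    exact this.le)
  rw [hf] at h2
  linarith

end Q46.CD
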