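import Mathlib

set_option autoImplicit false
set_option linter.unusedSectionVars false

namespace Q46.CD

open Finset

variable {V : Type*} [Fintype V] [DecidableEq V]

/-- clique polynomial -/
def P (G : SimpleGraph V) [DecidableRel G.Adj] (k : ℕ) (x : V → ℝ) : ℝ :=
  ∑ S ∈ G.cliqueFinset k, ∏ v ∈ S, x v

/-- shift of weight from `v` to `u` -/
def sh (u v : V) (x : V → ℝ) (t : ℝ) : V → ℝ :=
  fun w => if w = u then x u + t else if w = v then x v - t else x w

theorem quad_prod (u v : V) (huv : u ≠ v) (x : V → ℝ) (S : Finset V) :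
    ∃ b D : ℝ, (∀ t, ∏ w ∈ S, sh u v x t w = ∏ w ∈ S, x w + b * t - D * t ^ 2) ∧
      (¬ (u ∈ S ∧ v ∈ S) → D = 0) := by
  have hoff : ∀ T : Finset V, u ∉ T → v ∉ T → ∀ t, ∏ w ∈ T, sh u v x t w = ∏ w ∈ T, x w := by
    intro T hu hv t
    refine Finset.prod_congr rfl fun w hw => ?_
    have h1 : w ≠ u := fun h => hu (h ▸ hw)
    have h2 : w ≠ v := fun h => hv (h ▸ hw)
    simp [sh, h1, h2]
  have eu : ∀ t, sh u v x t u = x u + t := fun t => by simp [sh]
  have ev : ∀ t, sh u v x t v = x v - t := fun t => by simp [sh, huv.symm]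
  by_cases hu : u ∈ S
  · by_cases hv : v ∈ S
    · have hv' : v ∈ S.erase u := by simp [hv, huv.symm]
      set R := (S.erase u).erase v with hR
      refine ⟨(x v - x u) * ∏ w ∈ R, x w, ∏ w ∈ R, x w, fun t => ?_, fun h => absurd ⟨hu, hv⟩ h⟩
      rw [← Finset.mul_prod_erase S _ hu, ← Finset.mul_prod_erase (S.erase u) _ hv',
        ← Finset.mul_prod_erase S (fun w => x w) hu, ← Finset.mul_prod_erase (S.erase u) (fun w => x w) hv',
        ← hR, hoff R (by simp [hR]) (by simp [hR]), eu, ev]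
      ring
    · refine ⟨∏ w ∈ S.erase u, x w, 0, fun t => ?_, fun _ => rfl⟩
      rw [← Finset.mul_prod_erase S _ hu, ← Finset.mul_prod_erase S (fun w => x w) hu,
        hoff (S.erase u) (by simp) (by simp [hv]), eu]
      ring
  · by_cases hv : v ∈ S
    · refine ⟨- ∏ w ∈ S.erase v, x w, 0, fun t => ?_, fun _ => rfl⟩
      rw [← Finset.mul_prod_erase S _ hv, ← Finset.mul_prod_erase S (fun w => x w) hv,
        hoff (S.erase v) (by simp [hu]) (by simp), ev]
      ring
    · exact ⟨0, 0, fun t => by rw [hoff S hu hv]; ring, fun _ => rfl⟩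

theorem quad_P (G : SimpleGraph V) [DecidableRel G.Adj] (k : ℕ) (u v : V) (huv : u ≠ v)
    (x : V → ℝ) :
    ∃ b D : ℝ, (∀ t, P G k (sh u v x t) = P G k x + b * t - D * t ^ 2) ∧
      (¬ G.Adj u v → D = 0) := by
  choose b D h1 h2 using quad_prod u v huv x
  refine ⟨∑ S ∈ G.cliqueFinset k, b S, ∑ S ∈ G.cliqueFinset k, D S, fun t => ?_, fun hadj => ?_⟩
  · unfold P
    rw [Finset.sum_mul, Finset.sum_mul, ← Finset.sum_add_distrib, ← Finset.sum_sub_distrib]
    exact Finset.sum_congr rfl fun S _ => h1 S t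
  · refine Finset.sum_eq_zero fun S hS => h2 S fun h => hadj ?_
    rw [SimpleGraph.mem_cliqueFinset_iff] at hS
    exact hS.isClique h.1 h.2 huv

/-- combination of clique polynomials -/
def F {m : ℕ} (G : SimpleGraph V) [DecidableRel G.Adj] (e : Fin m → ℕ) (c : Fin m → ℝ)
    (x : V → ℝ) : ℝ := ∑ i, c i * ((e i).factorial * P G (e i) x)

theorem quad_F {m : ℕ} (G : SimpleGraph V) [DecidableRel G.Adj] (e : Fin m → ℕ) (c : Fin m → ℝ)
    (u v : V) (huv : u ≠ v) (x : V → ℝ) :
    ∃ b D : ℝ, (∀ t, F G e c (sh u v x t) = F G e c x + b * t - D * t ^ 2) ∧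
      (¬ G.Adj u v → D = 0) := by
  choose b D h1 h2 using fun k => quad_P G k u v huv x
  refine ⟨∑ i, c i * ((e i).factorial * b (e i)), ∑ i, c i * ((e i).factorial * D (e i)),
    fun t => ?_, fun hadj => ?_⟩
  · unfold F
    rw [Finset.sum_mul, Finset.sum_mul, ← Finset.sum_add_distrib, ← Finset.sum_sub_distrib]
    refine Finset.sum_congr rfl fun i _ => ?_
    rw [h1]; ring
  · refine Finset.sum_eq_zero fun i _ => ?_
    rw [h2 _ hadj]; ring

theorem quad_max (q b D s r : ℝ) (hs : 0 < s) (hr : 0 < r)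
    (h : ∀ t, -s ≤ t → t ≤ r → q + b * t - D * t ^ 2 ≤ q) : b = 0 ∧ 0 ≤ D := by
  set δ := min s r with hδ
  have hδ0 : 0 < δ := lt_min hs hr
  have h1 := h δ (by linarith) (min_le_right _ _)
  have h2 := h (-δ) (by have := min_le_left s r; linarith) (by linarith)
  have hD : 0 ≤ D := by
    have : 0 ≤ D * δ ^ 2 := by nlinarith
    by_contra hc
    push Not at hc
    have := mul_neg_of_neg_of_pos hc (pow_pos hδ0 2)
    linarith
  refine ⟨?_, hD⟩
  by_contra hb
  rcases lt_or_gt_of_ne hb with hb | hb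
  · -- b < 0
    obtain ⟨t, ht0, ht1, ht2⟩ : ∃ t : ℝ, 0 < t ∧ t ≤ δ ∧ D * t < -b := by
      refine ⟨min δ (-b / (2 * (D + 1))), lt_min hδ0 (by apply div_pos <;> linarith), min_le_left _ _, ?_⟩
      have h3 : min δ (-b / (2 * (D + 1))) ≤ -b / (2 * (D + 1)) := min_le_right _ _
      calc D * min δ (-b / (2 * (D + 1))) ≤ D * (-b / (2 * (D + 1))) :=
            mul_le_mul_of_nonneg_left h3 hD
        _ < -b := by
          rw [mul_div_assoc', div_lt_iff₀ (by linarith)]
          nlinarith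
    have h4 := h (-t) (by have := min_le_left s r; linarith) (by linarith)
    nlinarith
  · obtain ⟨t, ht0, ht1, ht2⟩ : ∃ t : ℝ, 0 < t ∧ t ≤ δ ∧ D * t < b := by
      refine ⟨min δ (b / (2 * (D + 1))), lt_min hδ0 (by apply div_pos <;> linarith), min_le_left _ _, ?_⟩
      have h3 : min δ (b / (2 * (D + 1))) ≤ b / (2 * (D + 1)) := min_le_right _ _
      calc D * min δ (b / (2 * (D + 1))) ≤ D * (b / (2 * (D + 1))) :=
            mul_le_mul_of_nonneg_left h3 hD
        _ < b := by
          rw [mul_div_assoc', div_lt_iff₀ (by linarith)]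
          nlinarith
    have h4 := h t (by linarith) (by have := min_le_right s r; linarith)
    nlinarith

/-- on a clique support the clique polynomial is an elementary symmetric function -/
theorem P_clique (G : SimpleGraph V) [DecidableRel G.Adj] (k : ℕ) (x : V → ℝ)
    (hx : ∀ u v, u ≠ v → x u ≠ 0 → x v ≠ 0 → G.Adj u v) :
    P G k x = ∑ S ∈ univ.powersetCard k, ∏ v ∈ S, x v := by
  unfold P
  refine Finset.sum_subset (fun S hS => ?_) (fun S hS hS' => ?_)
  · rw [SimpleGraph.mem_cliqueFinset_iff] at hS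
    rw [Finset.mem_powersetCard]
    exact ⟨Finset.subset_univ _, hS.card_eq⟩
  · rw [Finset.mem_powersetCard] at hS
    rw [SimpleGraph.mem_cliqueFinset_iff] at hS'
    by_contra hprod
    rw [← ne_eq, Finset.prod_ne_zero_iff] at hprod
    exact hS' ⟨fun a ha b hb hab => hx a b hab (hprod a ha) (hprod b hb), hS.2⟩

theorem esymm_perm (k : ℕ) (x : V → ℝ) (σ : Equiv.Perm V) :
    ∑ S ∈ (univ : Finset V).powersetCard k, ∏ v ∈ S, x (σ v) =
      ∑ S ∈ univ.powersetCard k, ∏ v ∈ S, x v := by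
  refine Finset.sum_bij' (fun S _ => S.map σ.toEmbedding) (fun S _ => S.map σ.symm.toEmbedding)
    ?_ ?_ ?_ ?_ ?_
  · intro S hS
    simp only [Finset.mem_powersetCard, Finset.card_map, Finset.subset_univ, true_and] at hS ⊢
    exact hS
  · intro S hS
    simp only [Finset.mem_powersetCard, Finset.card_map, Finset.subset_univ, true_and] at hS ⊢
    exact hS
  · intro S hS
    ext a; simp
  · intro S hS
    ext a; simp
  · intro S hS
    rw [Finset.prod_map]
    rfl

end Q46.CD
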