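import Pool.Agent.Q46.CD.Lag

set_option autoImplicit false
set_option linter.unusedSectionVars false

namespace Q46.CD

open Finset

variable {V : Type*} [Fintype V] [DecidableEq V]

theorem F_continuous {m : ℕ} (G : SimpleGraph V) [DecidableRel G.Adj] (e : Fin m → ℕ)
    (c : Fin m → ℝ) : Continuous (F G e c) := by
  unfold F P
  fun_prop

theorem sh_mem {u v : V} (huv : u ≠ v) {x : V → ℝ} (hx : x ∈ stdSimplex ℝ V) {t : ℝ}
    (h1 : - x u ≤ t) (h2 : t ≤ x v) : sh u v x t ∈ stdSimplex ℝ V := by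
  refine ⟨fun w => ?_, ?_⟩
  · unfold sh
    split_ifs
    · linarith
    · linarith
    · exact hx.1 w
  · have e : sh u v x t = fun w => x w + (if w = u then t else 0) - (if w = v then t else 0) := by
      funext w
      unfold sh
      by_cases h1 : w = u
      · subst h1
        simp [huv]
      · by_cases h2 : w = v
        · subst h2
          simp [h1]
        · simp [h1, h2]
    rw [e, Finset.sum_sub_distrib, Finset.sum_add_distrib, hx.2]
    simp

/-- a maximiser with smallest support is uniform on a clique -/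
theorem exists_max {m : ℕ} [Nonempty V] (G : SimpleGraph V) [DecidableRel G.Adj] (e : Fin m → ℕ)
    (c : Fin m → ℝ) :
    ∃ x ∈ stdSimplex ℝ V, (∀ y ∈ stdSimplex ℝ V, F G e c y ≤ F G e c x) ∧
      (∀ u v, x u ≠ 0 → x v ≠ 0 → x u = x v) ∧
      (∀ u v, u ≠ v → x u ≠ 0 → x v ≠ 0 → G.Adj u v) := by
  classical
  have hne : (stdSimplex ℝ V).Nonempty := by
    obtain ⟨v⟩ := (inferInstance : Nonempty V)
    exact ⟨_, ite_eq_mem_stdSimplex ℝ v⟩
  obtain ⟨x0, hx0, hmax0⟩ := (isCompact_stdSimplex ℝ V).exists_isMaxOn hne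
    (F_continuous G e c).continuousOn
  set A : Set (V → ℝ) := {x | x ∈ stdSimplex ℝ V ∧ ∀ y ∈ stdSimplex ℝ V, F G e c y ≤ F G e c x}
    with hA
  have hAne : A.Nonempty := ⟨x0, hx0, fun y hy => hmax0 hy⟩
  obtain ⟨x, hxA, hmin⟩ := WellFounded.has_min
    (measure fun x : V → ℝ => (univ.filter fun v => x v ≠ 0).card).wf A hAne
  obtain ⟨hx, hmax⟩ := hxA
  have key : ∀ u v, u ≠ v → x u ≠ 0 → x v ≠ 0 →
      ∃ D : ℝ, 0 < D ∧ (∀ t, F G e c (sh u v x t) = F G e c x - D * t ^ 2) ∧ G.Adj u v := by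
    intro u v huv hu hv
    have hu' : 0 < x u := lt_of_le_of_ne (hx.1 u) (Ne.symm hu)
    have hv' : 0 < x v := lt_of_le_of_ne (hx.1 v) (Ne.symm hv)
    obtain ⟨b, D, h1, h2⟩ := quad_F G e c u v huv x
    obtain ⟨hb, hD⟩ := quad_max (F G e c x) b D (x u) (x v) hu' hv' (fun t ht1 ht2 => by
      rw [← h1]
      exact hmax _ (sh_mem huv hx ht1 ht2))
    rcases hD.eq_or_lt with hD0 | hD0
    · exfalso
      have hy : sh u v x (x v) ∈ A := by
        refine ⟨sh_mem huv hx (by linarith) le_rfl, fun y hy => ?_⟩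
        rw [h1, hb, ← hD0]
        simpa using hmax y hy
      refine hmin _ hy ?_
      show (univ.filter fun w => sh u v x (x v) w ≠ 0).card < (univ.filter fun w => x w ≠ 0).card
      apply Finset.card_lt_card
      rw [Finset.ssubset_iff_of_subset]
      · exact ⟨v, by simp [hv], by simp [sh, huv.symm]⟩
      · intro w hw
        simp only [Finset.mem_filter, Finset.mem_univ, true_and] at hw ⊢
        intro h
        apply hw
        have e1 : w ≠ u := fun h1 => hu (h1 ▸ h)
        have e2 : w ≠ v := fun h1 => hv (h1 ▸ h)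
        simp [sh, e1, e2, h]
    · refine ⟨D, hD0, fun t => by rw [h1, hb]; ring, ?_⟩
      by_contra hadj
      exact hD0.ne' (h2 hadj)
  have hcl : ∀ u v, u ≠ v → x u ≠ 0 → x v ≠ 0 → G.Adj u v := fun u v h1 h2 h3 =>
    (key u v h1 h2 h3).choose_spec.2.2
  refine ⟨x, hx, hmax, fun u v hu hv => ?_, hcl⟩
  by_cases huv : u = v
  · rw [huv]
  obtain ⟨D, hD, h1, hadj⟩ := key u v huv hu hv
  have h2 := h1 (x v - x u)
  have e1 : sh u v x (x v - x u) = fun w => x (Equiv.swap u v w) := by
    funext w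
    unfold sh
    by_cases h3 : w = u
    · subst h3; simp
    · by_cases h4 : w = v
      · subst h4; simp [h3]
      · simp [h3, h4, Equiv.swap_apply_of_ne_of_ne h3 h4]
  have e2 : F G e c (fun w => x (Equiv.swap u v w)) = F G e c x := by
    unfold F
    refine Finset.sum_congr rfl fun i _ => ?_
    rw [P_clique G _ x hcl, P_clique G _ _ (fun a b hab ha hb => ?_), esymm_perm]
    by_cases ha' : a = u ∨ a = v
    · by_cases hb' : b = u ∨ b = v
      · rcases ha' with rfl | rfl <;> rcases hb' with rfl | rfl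
        · exact absurd rfl hab
        · exact hadj
        · exact hadj.symm
        · exact absurd rfl hab
      · push Not at hb'
        rw [Equiv.swap_apply_of_ne_of_ne hb'.1 hb'.2] at hb
        rcases ha' with rfl | rfl
        · exact hcl _ _ hab hu hb
        · exact hcl _ _ hab hv hb
    · push Not at ha'
      rw [Equiv.swap_apply_of_ne_of_ne ha'.1 ha'.2] at ha
      by_cases hb' : b = u ∨ b = v
      · rcases hb' with rfl | rfl
        · exact hcl _ _ hab ha hu
        · exact hcl _ _ hab ha hv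
      · push Not at hb'
        rw [Equiv.swap_apply_of_ne_of_ne hb'.1 hb'.2] at hb
        exact hcl _ _ hab ha hb
  rw [e1, e2] at h2
  have h3 : D * (x v - x u) ^ 2 = 0 := by linarith
  rcases mul_eq_zero.1 h3 with h4 | h4
  · exact absurd h4 hD.ne'
  · have := pow_eq_zero_iff (two_ne_zero) |>.1 h4
    linarith

theorem descFact (k e : ℕ) (hk : 0 < k) : ((k.descFactorial e : ℕ) : ℝ) / (k : ℝ) ^ e =
    ∏ j ∈ range e, (1 - (j : ℝ) / k) := by
  have hk' : (0 : ℝ) < k := by exact_mod_cast hk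
  induction e with
  | zero => simp
  | succ e ih =>
    rw [Finset.prod_range_succ, ← ih, Nat.descFactorial_succ]
    by_cases h : e ≤ k
    · push_cast [h]
      field_simp
      ring
    · push Not at h
      have : k.descFactorial e = 0 := Nat.descFactorial_eq_zero_iff_lt.2 h
      rw [this]; simp

theorem prod_range_Ico (e : ℕ) (he : 0 < e) (k : ℝ) :
    ∏ j ∈ range e, (1 - (j : ℝ) / k) = ∏ j ∈ Ico 1 e, (1 - (j : ℝ) / k) := by
  rw [Finset.range_eq_Ico, Finset.prod_eq_prod_Ico_succ_bot he]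
  simp

/-- Main inequality. -/
theorem main_ineq {m : ℕ} [Nonempty V] (G : SimpleGraph V) [DecidableRel G.Adj] (e : Fin m → ℕ)
    (he : ∀ i, 0 < e i) (c : Fin m → ℝ) (β : ℝ)
    (hβ : ∀ k : ℕ, ∑ i, c i * ∏ j ∈ Ico 1 (e i), (1 - (j : ℝ) / ((k : ℝ) + 1)) ≤ β) :
    ∑ i, c i * ((e i).factorial * (G.cliqueFinset (e i)).card / (Fintype.card V : ℝ) ^ (e i)) ≤ β := by
  classical
  obtain ⟨x, hx, hmax, huni, hcl⟩ := exists_max G e c
  have hN : (0 : ℝ) < Fintype.card V := by exact_mod_cast Fintype.card_pos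
  have h1 : (fun _ => ((Fintype.card V : ℝ))⁻¹) ∈ stdSimplex ℝ V := by
    refine ⟨fun _ => by positivity, ?_⟩
    rw [Finset.sum_const, Finset.card_univ, nsmul_eq_mul, mul_inv_cancel₀ hN.ne']
  have h2 := hmax _ h1
  have h3 : F G e c (fun _ => ((Fintype.card V : ℝ))⁻¹) =
      ∑ i, c i * ((e i).factorial * (G.cliqueFinset (e i)).card / (Fintype.card V : ℝ) ^ (e i)) := by
    unfold F P
    refine Finset.sum_congr rfl fun i _ => ?_
    have : ∑ S ∈ G.cliqueFinset (e i), ∏ _v ∈ S, ((Fintype.card V : ℝ))⁻¹ =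
        (G.cliqueFinset (e i)).card * ((Fintype.card V : ℝ)⁻¹) ^ (e i) := by
      rw [← nsmul_eq_mul]
      refine Finset.sum_eq_card_nsmul fun S hS => ?_
      rw [SimpleGraph.mem_cliqueFinset_iff] at hS
      rw [Finset.prod_const, hS.card_eq]
    rw [this, inv_pow]
    ring
  rw [← h3]
  refine h2.trans ?_
  -- evaluate at x
  set K := univ.filter fun v => x v ≠ 0 with hK
  obtain ⟨v0, hv0⟩ : ∃ v, x v ≠ 0 := by
    by_contra hcon
    push Not at hcon
    have := hx.2
    rw [Finset.sum_eq_zero fun i _ => hcon i] at this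
    exact zero_ne_one this
  have hKpos : 0 < K.card := Finset.card_pos.2 ⟨v0, by simp [hK, hv0]⟩
  have hxv : ∀ v ∈ K, x v = (K.card : ℝ)⁻¹ := by
    intro v hv
    have hv' : x v ≠ 0 := by simpa [hK] using hv
    have h4 : ∑ w ∈ K, x w = 1 := by
      rw [← hx.2]
      refine Finset.sum_subset (Finset.subset_univ _) fun w _ hw => ?_
      by_contra h
      exact hw (by simp [hK, h])
    have h5 : ∑ w ∈ K, x w = K.card * x v := by
      rw [← nsmul_eq_mul]
      refine Finset.sum_eq_card_nsmul fun w hw => ?_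
      exact huni w v (by simpa [hK] using hw) hv'
    rw [h5] at h4
    exact eq_inv_of_mul_eq_one_right h4
  have h6 : F G e c x = ∑ i, c i * ∏ j ∈ Ico 1 (e i), (1 - (j : ℝ) / K.card) := by
    unfold F
    refine Finset.sum_congr rfl fun i _ => ?_
    congr 1
    rw [P_clique G _ x hcl, ← prod_range_Ico _ (he i), ← descFact _ _ hKpos]
    have h7 : ∑ S ∈ univ.powersetCard (e i), ∏ v ∈ S, x v =
        ∑ S ∈ K.powersetCard (e i), ∏ v ∈ S, x v := by
      symm
      refine Finset.sum_subset (Finset.powersetCard_mono (Finset.subset_univ _)) fun S hS hS' => ?_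
      rw [Finset.mem_powersetCard] at hS hS'
      have : ¬ S ⊆ K := fun h => hS' ⟨h, hS.2⟩
      obtain ⟨w, hw, hwK⟩ := Finset.not_subset.1 this
      exact Finset.prod_eq_zero hw (by by_contra h; exact hwK (by simp [hK, h]))
    rw [h7]
    have h8 : ∑ S ∈ K.powersetCard (e i), ∏ v ∈ S, x v = (K.card.choose (e i)) * ((K.card : ℝ)⁻¹) ^ (e i) := by
      rw [← Finset.card_powersetCard, ← nsmul_eq_mul]
      refine Finset.sum_eq_card_nsmul fun S hS => ?_
      rw [Finset.mem_powersetCard] at hS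
      rw [Finset.prod_congr rfl fun v hv => hxv v (hS.1 hv), Finset.prod_const, hS.2]
    rw [h8, Nat.descFactorial_eq_factorial_mul_choose, inv_pow]
    push_cast
    field_simp
  rw [h6]
  have := hβ (K.card - 1)
  have e1 : ((K.card - 1 : ℕ) : ℝ) + 1 = K.card := by
    have : K.card - 1 + 1 = K.card := Nat.sub_add_cancel hKpos
    exact_mod_cast this
  rw [e1] at this
  exact this

end Q46.CD
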